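import Pool.Agent.N627.ND.Stm

/-! # Project ND (helper627), piece C1 (helper306): random selection of few vertices -/

set_option autoImplicit false

namespace Pool.Agent.N306.ND

open Finset

variable {V : Type} [Fintype V] [DecidableEq V]

/-- the weight of the random set -/
noncomputable def w (p : ℝ) (t : Finset V) : ℝ := (∏ _i ∈ t, p) * ∏ _i ∈ univ \ t, (1 - p)

lemma w_pos {p : ℝ} (h0 : 0 < p) (h1 : p < 1) (t : Finset V) : 0 < w p t := by
  unfold w
  have : 0 < 1 - p := by linarith
  positivity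

lemma count (p : ℝ) (A B : Finset V) (hAB : Disjoint A B) :
    ∑ t ∈ (univ : Finset V).powerset, w p t * (if A ⊆ t ∧ Disjoint B t then (1 : ℝ) else 0) =
      p ^ A.card * (1 - p) ^ B.card := by
  have h := Finset.prod_add (fun i => if i ∈ B then (0 : ℝ) else p)
    (fun i => if i ∈ A then (0 : ℝ) else 1 - p) (univ : Finset V)
  have hL : ∏ i ∈ (univ : Finset V), ((if i ∈ B then (0 : ℝ) else p) +
      (if i ∈ A then (0 : ℝ) else 1 - p)) = p ^ A.card * (1 - p) ^ B.card := by
    have h1 : ∀ i ∈ (univ : Finset V), ((if i ∈ B then (0 : ℝ) else p) +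
        (if i ∈ A then (0 : ℝ) else 1 - p)) = (if i ∈ A then p else 1) *
          (if i ∈ B then 1 - p else 1) := by
      intro i _
      by_cases hA : i ∈ A
      · have hB : i ∉ B := Finset.disjoint_left.1 hAB hA
        simp [hA, hB]
      · by_cases hB : i ∈ B
        · simp [hA, hB]
        · simp [hA, hB]
    rw [Finset.prod_congr rfl h1, Finset.prod_mul_distrib, Finset.prod_ite_mem,
      Finset.prod_ite_mem, univ_inter, univ_inter, Finset.prod_const, Finset.prod_const]
  rw [← hL, h]
  refine Finset.sum_congr rfl fun t _ => ?_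
  unfold w
  have e1 : ∏ i ∈ t, (if i ∈ B then (0 : ℝ) else p) =
      if Disjoint B t then ∏ _i ∈ t, p else 0 := by
    split_ifs with hd
    · refine Finset.prod_congr rfl fun i hi => ?_
      rw [if_neg (Finset.disjoint_right.1 hd hi)]
    · rw [Finset.not_disjoint_iff] at hd
      obtain ⟨i, hi1, hi2⟩ := hd
      exact Finset.prod_eq_zero hi2 (if_pos hi1)
  have e2 : ∏ i ∈ univ \ t, (if i ∈ A then (0 : ℝ) else 1 - p) =
      if A ⊆ t then ∏ _i ∈ univ \ t, (1 - p) else 0 := by
    split_ifs with hd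
    · refine Finset.prod_congr rfl fun i hi => ?_
      rw [if_neg fun h => (Finset.mem_sdiff.1 hi).2 (hd h)]
    · rw [Finset.not_subset] at hd
      obtain ⟨i, hi1, hi2⟩ := hd
      exact Finset.prod_eq_zero (Finset.mem_sdiff.2 ⟨mem_univ i, hi2⟩) (if_pos hi1)
  rw [e1, e2]
  by_cases hA : A ⊆ t <;> by_cases hB : Disjoint B t <;> simp [hA, hB]

lemma quarter (d : ℕ) (hd : 2 ≤ d) : (1 / 4 : ℝ) ≤ (1 - 1 / (d : ℝ)) ^ (d - 1) := by
  obtain ⟨m, rfl⟩ : ∃ m, d = m + 1 := ⟨d - 1, by omega⟩
  have hm : 1 ≤ m := by omega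
  have hm0 : (0 : ℝ) < m := by exact_mod_cast hm
  rw [Nat.add_sub_cancel]
  have h1 : (1 + 1 / (m : ℝ)) ^ m ≤ Real.exp 1 := by
    calc (1 + 1 / (m : ℝ)) ^ m ≤ (Real.exp (1 / m)) ^ m := by
          refine pow_le_pow_left₀ (by positivity) ?_ m
          have := Real.add_one_le_exp (1 / (m : ℝ))
          linarith
      _ = Real.exp 1 := by
          rw [← Real.exp_nat_mul]
          congr 1
          field_simp
  have h2 : Real.exp 1 < 4 := lt_trans Real.exp_one_lt_d9 (by norm_num)
  have h3 : (1 - 1 / ((m + 1 : ℕ) : ℝ)) * (1 + 1 / (m : ℝ)) = 1 := by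
    push_cast
    field_simp
    ring
  have h4 : (1 - 1 / ((m + 1 : ℕ) : ℝ)) ^ m * (1 + 1 / (m : ℝ)) ^ m = 1 := by
    rw [← mul_pow, h3, one_pow]
  have h5 : 0 ≤ (1 - 1 / ((m + 1 : ℕ) : ℝ)) ^ m := by
    apply pow_nonneg
    push_cast
    rw [sub_nonneg, div_le_one (by positivity)]
    linarith
  by_contra hcon
  rw [not_le] at hcon
  have h6 : (1 + 1 / (m : ℝ)) ^ m < 4 := lt_of_le_of_lt h1 h2
  have h7 : 0 < (1 + 1 / (m : ℝ)) ^ m := by positivity
  nlinarith

theorem c1 : Pool.Agent.N627.ND.S_C1 := by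
  classical
  intro V _ _ d δ N L hd hδ hN hL hcard
  have hd0 : (0 : ℝ) < d := by exact_mod_cast (show 0 < d by omega)
  have hd2 : (2 : ℝ) ≤ d := by exact_mod_cast hd
  set p : ℝ := 1 / d with hp
  have hp0 : 0 < p := by positivity
  have hp1 : p < 1 := by
    rw [hp, div_lt_one hd0]
    linarith
  set Y : Finset V → Finset V := fun t => univ.filter fun v => v ∉ t ∧ ∃ e ∈ L v, e ⊆ t with hY
  set n : ℝ := (Fintype.card V : ℝ) with hn
  set PP := (univ : Finset V).powerset with hPP
  have htot : ∑ t ∈ PP, w p t = 1 := by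
    have h := count p (∅ : Finset V) ∅ (disjoint_empty_left _)
    refine (Finset.sum_congr rfl fun t _ => ?_).trans (h.trans ?_)
    · rw [if_pos ⟨Finset.empty_subset _, disjoint_empty_left _⟩, mul_one]
    · rw [Finset.card_empty, pow_zero, pow_zero, one_mul]
  have hX : ∑ t ∈ PP, w p t * (t.card : ℝ) = n * p := by
    have h1 : ∀ t ∈ PP, w p t * (t.card : ℝ) = ∑ v : V, w p t *
        (if ({v} : Finset V) ⊆ t ∧ Disjoint (∅ : Finset V) t then (1 : ℝ) else 0) := by
      intro t _
      rw [← Finset.mul_sum]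
      congr 1
      simp
    rw [Finset.sum_congr rfl h1, Finset.sum_comm]
    have h2 : ∀ v ∈ (univ : Finset V), ∑ t ∈ PP, w p t *
        (if ({v} : Finset V) ⊆ t ∧ Disjoint (∅ : Finset V) t then (1 : ℝ) else 0) = p := by
      intro v _
      rw [count p {v} ∅ (disjoint_empty_right _)]
      simp
    rw [Finset.sum_congr rfl h2, Finset.sum_const, Finset.card_univ, nsmul_eq_mul]
  have hYl : n * δ / 4 ≤ ∑ t ∈ PP, w p t * ((Y t).card : ℝ) := by
    have h1 : ∀ t ∈ PP, ∑ v : V, ∑ e ∈ L v, w p t *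
        (if e ⊆ t ∧ Disjoint (insert v (N v \ e)) t then (1 : ℝ) else 0) ≤
          w p t * ((Y t).card : ℝ) := by
      intro t _
      have h2 : ((Y t).card : ℝ) = ∑ v : V, if v ∈ Y t then (1 : ℝ) else 0 := by
        rw [Finset.sum_ite_mem, univ_inter, Finset.sum_const, nsmul_eq_mul, mul_one]
      rw [h2, Finset.mul_sum]
      refine Finset.sum_le_sum fun v _ => ?_
      rw [← Finset.mul_sum]
      refine mul_le_mul_of_nonneg_left ?_ (w_pos hp0 hp1 t).le
      by_cases hex : ∃ e ∈ L v, e ⊆ t ∧ Disjoint (insert v (N v \ e)) t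
      · obtain ⟨e, he, het, hed⟩ := hex
        have hone : ∀ e' ∈ L v, e' ≠ e →
            (if e' ⊆ t ∧ Disjoint (insert v (N v \ e')) t then (1 : ℝ) else 0) = 0 := by
          intro e' he' hne
          rw [if_neg]
          rintro ⟨het', hed'⟩
          apply hne
          have key : ∀ f ∈ L v, f ⊆ t → Disjoint (insert v (N v \ f)) t → f = N v ∩ t := by
            intro f hf hft hfd
            ext x
            rw [Finset.mem_inter]
            constructor
            · intro hx
              exact ⟨(hL v f hf).1 hx, hft hx⟩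
            · rintro ⟨hx1, hx2⟩
              by_contra hx3
              exact Finset.disjoint_left.1 hfd
                (Finset.mem_insert_of_mem (Finset.mem_sdiff.2 ⟨hx1, hx3⟩)) hx2
          rw [key e he het hed, key e' he' het' hed']
        rw [Finset.sum_eq_single_of_mem e he hone, if_pos ⟨het, hed⟩, if_pos]
        rw [hY]
        simp only [mem_filter, mem_univ, true_and]
        exact ⟨Finset.disjoint_left.1 hed (Finset.mem_insert_self _ _), e, he, het⟩
      · have hz : ∑ e ∈ L v, (if e ⊆ t ∧ Disjoint (insert v (N v \ e)) t then (1 : ℝ) else 0) =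
            0 := by
          refine Finset.sum_eq_zero fun e he => ?_
          rw [if_neg]
          intro h
          exact hex ⟨e, he, h⟩
        rw [hz]
        split_ifs <;> norm_num
    refine le_trans ?_ (Finset.sum_le_sum h1)
    rw [Finset.sum_comm]
    have h3 : ∀ v ∈ (univ : Finset V), δ / 4 ≤ ∑ t ∈ PP, ∑ e ∈ L v, w p t *
        (if e ⊆ t ∧ Disjoint (insert v (N v \ e)) t then (1 : ℝ) else 0) := by
      intro v _
      rw [Finset.sum_comm]
      have h4 : ∀ e ∈ L v, ∑ t ∈ PP, w p t *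
          (if e ⊆ t ∧ Disjoint (insert v (N v \ e)) t then (1 : ℝ) else 0) =
            p ^ 2 * (1 - p) ^ (d - 1) := by
        intro e he
        have hev : v ∉ e := fun h => (hN v).2 ((hL v e he).1 h)
        rw [count p e (insert v (N v \ e))]
        · rw [(hL v e he).2, Finset.card_insert_of_notMem, Finset.card_sdiff_of_subset (hL v e he).1,
            (hL v e he).2, (hN v).1]
          · congr 2
            omega
          · rw [Finset.mem_sdiff, not_and]
            intro h
            exact absurd h (hN v).2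
        · rw [Finset.disjoint_left]
          intro x hx hx'
          rcases Finset.mem_insert.1 hx' with h | h
          · exact hev (h ▸ hx)
          · exact (Finset.mem_sdiff.1 h).2 hx
      rw [Finset.sum_congr rfl h4, Finset.sum_const, nsmul_eq_mul]
      have h5 := quarter d hd
      rw [← hp] at h5
      have h6 := hcard v
      have h7 : (d : ℝ) ^ 2 * p ^ 2 = 1 := by
        rw [hp]
        field_simp
      calc δ / 4 = δ * ((d : ℝ) ^ 2 * p ^ 2) * (1 / 4) := by rw [h7]; ring
        _ ≤ δ * ((d : ℝ) ^ 2 * p ^ 2) * (1 - p) ^ (d - 1) :=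
            mul_le_mul_of_nonneg_left h5 (by positivity)
        _ = (δ * (d : ℝ) ^ 2) * (p ^ 2 * (1 - p) ^ (d - 1)) := by ring
        _ ≤ ((L v).card : ℝ) * (p ^ 2 * (1 - p) ^ (d - 1)) := by
            refine mul_le_mul_of_nonneg_right h6 ?_
            have : 0 ≤ 1 - p := by linarith
            positivity
    calc n * δ / 4 = ∑ v : V, δ / 4 := by
          rw [Finset.sum_const, Finset.card_univ, nsmul_eq_mul]
          ring
      _ ≤ _ := Finset.sum_le_sum h3
  have hsum : (0 : ℝ) ≤ ∑ t ∈ PP, w p t *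
      (8 * ((Y t).card : ℝ) - δ * ((d : ℝ) * (t.card : ℝ) + n)) := by
    have h1 : ∑ t ∈ PP, w p t * (8 * ((Y t).card : ℝ) - δ * ((d : ℝ) * (t.card : ℝ) + n)) =
        8 * ∑ t ∈ PP, w p t * ((Y t).card : ℝ) - δ * d * ∑ t ∈ PP, w p t * (t.card : ℝ) -
          δ * n * ∑ t ∈ PP, w p t := by
      rw [Finset.mul_sum, Finset.mul_sum, Finset.mul_sum, ← Finset.sum_sub_distrib,
        ← Finset.sum_sub_distrib]
      refine Finset.sum_congr rfl fun t _ => ?_
      ring
    rw [h1, htot, hX]
    have h2 : δ * d * (n * p) = δ * n := by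
      rw [hp]
      field_simp
    rw [h2]
    linarith
  obtain ⟨t, ht, hval⟩ := Finset.exists_le_of_sum_le (s := PP) (f := fun _ => (0 : ℝ))
    (g := fun t => w p t * (8 * ((Y t).card : ℝ) - δ * ((d : ℝ) * (t.card : ℝ) + n)))
    ⟨∅, Finset.empty_mem_powerset _⟩ (by rw [Finset.sum_const_zero]; exact hsum)
  have hval2 : 0 ≤ 8 * ((Y t).card : ℝ) - δ * ((d : ℝ) * (t.card : ℝ) + n) :=
    nonneg_of_mul_nonneg_right hval (w_pos hp0 hp1 t)
  refine ⟨t, Y t, ?_, ?_, by linarith⟩
  · rw [Finset.disjoint_right]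
    intro v hv
    rw [hY] at hv
    simp only [mem_filter, mem_univ, true_and] at hv
    exact hv.1
  · intro v hv
    rw [hY] at hv
    simp only [mem_filter, mem_univ, true_and] at hv
    exact hv.2

end Pool.Agent.N306.ND
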